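import Pool.Agent.Y201.C3.Stm
import Pool.Agent.H552R3.Tsen.Zero

set_option autoImplicit false

/-!
A symmetric matrix of size three of polynomials in four variables, vanishing at the origin, has rank at
most one at another point.
-/

namespace Pool.Agent.Y46.C3

open MvPolynomial Pool.Agent.Y201.C3

/-- the six pairs of indices -/
def qq : Fin 6 → Fin 3 × Fin 3 := ![(0, 0), (0, 1), (0, 2), (1, 1), (1, 2), (2, 2)]

theorem qq_surj : ∀ i j : Fin 3, i ≤ j → ∃ l, qq l = (i, j) := by decide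

/-- the six polynomials -/
noncomputable def PP (A : Matrix (Fin 3) (Fin 3) (MvPolynomial (Fin 4) ℂ)) (l : Fin 3 × Fin 3) :
    MvPolynomial (Fin 4 ⊕ Fin 3) ℂ :=
  rename Sum.inl (A l.1 l.2) - X (Sum.inr l.1) * X (Sum.inr l.2)

theorem PP_eval (A : Matrix (Fin 3) (Fin 3) (MvPolynomial (Fin 4) ℂ)) (v : Fin 4 ⊕ Fin 3 → ℂ)
    (l : Fin 3 × Fin 3) : eval v (PP A l) =
      eval (v ∘ Sum.inl) (A l.1 l.2) - v (Sum.inr l.1) * v (Sum.inr l.2) := by
  rw [PP, map_sub, eval_rename, map_mul, eval_X, eval_X]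

theorem eta : S_ETA := by
  intro A hA h0
  obtain ⟨v, hv0, hv⟩ := Pool.Agent.H552R3.Tsen.exists_common_zero (k := ℂ) (fun i => PP A (qq i))
    (fun i => by
      rw [PP_eval]
      have : (0 : Fin 4 ⊕ Fin 3 → ℂ) ∘ Sum.inl = (0 : Fin 4 → ℂ) := rfl
      rw [this, h0]
      simp)
    (by simp)
  have hs : ∀ i j, A i j = A j i := fun i j => hA.apply j i
  have h2 : ∀ i j, i ≤ j → eval (v ∘ Sum.inl) (A i j) = v (Sum.inr i) * v (Sum.inr j) := by
    intro i j hij
    obtain ⟨l, hl⟩ := qq_surj i j hij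
    have h3 := hv l
    rw [hl, PP_eval] at h3
    exact sub_eq_zero.1 h3
  have h3 : ∀ i j, eval (v ∘ Sum.inl) (A i j) = v (Sum.inr i) * v (Sum.inr j) := by
    intro i j
    rcases le_total i j with h | h
    · exact h2 i j h
    · rw [hs, h2 j i h, mul_comm]
  refine ⟨v ∘ Sum.inl, ?_, ?_⟩
  · intro h
    apply hv0
    funext x
    rcases x with x | x
    · exact congrFun h x
    · have h4 := h3 x x
      rw [h, h0] at h4
      exact mul_self_eq_zero.1 h4.symm
  · intro i j k l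
    rw [h3, h3, h3, h3]
    ring

end Pool.Agent.Y46.C3
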